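import Pool.Agent.Helper24.HW.Stmts

set_option autoImplicit false

/-!
Module LOP of the project HW (empire maps on surfaces): two trivial loops.
-/

namespace Pool.Agent.Helper20.HW

open Equiv Equiv.Perm Pool.Agent.Helper24.HW Pool.Agent.Helper24.HWPub Pool.Agent.Helper98.Gn

/-- adding a trivial loop at the dart `a` -/
theorem lop_step (h1 : ST_UM) (h2 : ST_PCS) {C : Type} [DecidableEq C] (M : LM C) (a : M.D) :
    (M.um (LM.lop (M.ℓ a)) a (0 : Fin 2) rfl).chi = M.chi ∧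
      M.Ext (M.um (LM.lop (M.ℓ a)) a (0 : Fin 2) rfl) := by
  obtain ⟨u1, u2, u3, u4⟩ := h1 C M (LM.lop (M.ℓ a)) a (0 : Fin 2) rfl
  obtain ⟨-, ⟨p1, p2, p3⟩, -⟩ := h2 C (M.ℓ a) (M.ℓ a)
  refine ⟨?_, ?_, ?_, ?_, ?_⟩
  · rw [p1] at u1
    omega
  · intro A
    have h3 := u2 A
    rw [p3 A] at h3
    omega
  · intro A B hAB
    exact u3 A B (Or.inl hAB)
  · intro hc
    exact u4 hc p2
  · rintro ⟨x⟩
    exact ⟨Sum.inl x⟩

theorem lop_fix {C : Type} (M : LM C) (a : M.D) :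
    (M.um (LM.lop (M.ℓ a)) a (0 : Fin 2) rfl).σ
      ((M.um (LM.lop (M.ℓ a)) a (0 : Fin 2) rfl).α (Sum.inr (0 : Fin 2))) =
        Sum.inr (0 : Fin 2) := by
  change (Perm.sumCongr M.σ (swap (0 : Fin 2) 1) * swap (Sum.inl a) (Sum.inr (0 : Fin 2)))
    (Perm.sumCongr M.α (swap (0 : Fin 2) 1) (Sum.inr (0 : Fin 2))) = Sum.inr (0 : Fin 2)
  have e1 : Perm.sumCongr M.α (swap (0 : Fin 2) 1) (Sum.inr (0 : Fin 2)) = Sum.inr (1 : Fin 2) := by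
    simp
  rw [e1, Perm.mul_apply, swap_apply_of_ne_of_ne (by simp) (by simp)]
  simp

theorem lop_keep {C : Type} (M : LM C) (a x : M.D) (hx : M.σ (M.α x) = x) (ha : M.α x ≠ a) :
    (M.um (LM.lop (M.ℓ a)) a (0 : Fin 2) rfl).σ
      ((M.um (LM.lop (M.ℓ a)) a (0 : Fin 2) rfl).α (Sum.inl x)) = Sum.inl x := by
  change (Perm.sumCongr M.σ (swap (0 : Fin 2) 1) * swap (Sum.inl a) (Sum.inr (0 : Fin 2)))
    (Perm.sumCongr M.α (swap (0 : Fin 2) 1) (Sum.inl x)) = Sum.inl x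
  have e1 : Perm.sumCongr M.α (swap (0 : Fin 2) 1) (Sum.inl x) = Sum.inl (M.α x) := by
    simp
  have e2 : (Sum.inl (M.α x) : M.D ⊕ Fin 2) ≠ Sum.inl a := fun e => ha (Sum.inl.inj e)
  rw [e1, Perm.mul_apply, swap_apply_of_ne_of_ne e2 (by simp)]
  simp [hx]

theorem LOP (h1 : ST_UM) (h2 : ST_PCS) : ST_LOP := by
  intro C M hM
  classical
  obtain ⟨a⟩ := hM
  obtain ⟨M1, x, hx, c1, e1⟩ : ∃ (M1 : LM C) (x : M1.D), M1.σ (M1.α x) = x ∧ M1.chi = M.chi ∧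
      M.Ext M1 := by
    obtain ⟨c1, e1⟩ := lop_step h1 h2 M a
    exact ⟨M.um (LM.lop (M.ℓ a)) a (0 : Fin 2) rfl, (Sum.inr (0 : Fin 2) : M.D ⊕ Fin 2),
      lop_fix M a, c1, e1⟩
  obtain ⟨c2, e2⟩ := lop_step h1 h2 M1 x
  refine ⟨M1.um (LM.lop (M1.ℓ x)) x (0 : Fin 2) rfl, c2.trans c1, ?_,
    (Sum.inl x : M1.D ⊕ Fin 2), (Sum.inr (0 : Fin 2) : M1.D ⊕ Fin 2), ?_, ?_, ?_, ?_⟩
  · obtain ⟨q1, q2, q3, q4⟩ := e1
    obtain ⟨r1, r2, r3, r4⟩ := e2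
    exact ⟨fun A => (r1 A).trans (q1 A), fun A B hAB => r2 A B (q2 A B hAB),
      fun hc => r3 (q3 hc), fun hn => r4 (q4 hn)⟩
  · exact lop_keep M1 x x hx (M1.hne x)
  · exact lop_fix M1 x
  · exact Sum.inl_ne_inr
  · exact Sum.inl_ne_inr

end Pool.Agent.Helper20.HW
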